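import Pool.Agent.Lib.MP_ba0fa5_ag.AA.IfaceA
import Pool.Agent.Lib.MP_ba0fa5_ag.H72.Nrankin

/-!
# RANKB: Rankin's trick, sharp form
-/

set_option autoImplicit false

namespace Pool.Agent.Lib.MP_ba0fa5_ag.AA.H54

open Finset Pool.Agent.Lib.MP_ba0fa5_ag
open scoped Classical

/-- the product against the tail -/
lemma rankin_tail (P : Finset ℕ) (hP : ∀ l ∈ P, l.Prime) (D : ℕ) (hD : 1 ≤ D) (g : ℕ → ℝ)
    (hg : ∀ l ∈ P, 0 ≤ g l ∧ g l ≤ 4 / l) (σ : ℝ) (hσ : 0 ≤ σ)
    (hσP : ∀ l ∈ P, σ * Real.log l ≤ 1) :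
    ∏ l ∈ P, (1 + g l) - Real.exp (8 * σ * ∑ l ∈ P, Real.log l / l - σ * Real.log D) *
      ∏ l ∈ P, (1 + g l) ≤ ∑ s ∈ sfs P D, ∏ l ∈ s.primeFactors, g l := by
  have hf0 : ∀ l ∈ P, 0 ≤ g l := fun l hl => (hg l hl).1
  refine le_trans ?_ (H72.subsets_le_sfs P hP D g hf0)
  have hD0 : (0 : ℝ) < D := by exact_mod_cast hD
  have hsplit := Finset.sum_filter_add_sum_filter_not P.powerset (fun A => ∏ l ∈ A, l ≤ D)
    (fun A => ∏ l ∈ A, g l)
  rw [← Finset.prod_one_add] at hsplit
  -- the tail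
  have htail : ∑ A ∈ P.powerset.filter (fun A => ¬ ∏ l ∈ A, l ≤ D), ∏ l ∈ A, g l ≤
      Real.exp (8 * σ * ∑ l ∈ P, Real.log l / l - σ * Real.log D) * ∏ l ∈ P, (1 + g l) := by
    have h1 : ∀ A ∈ P.powerset.filter (fun A => ¬ ∏ l ∈ A, l ≤ D), ∏ l ∈ A, g l ≤
        Real.exp (-(σ * Real.log D)) * ∏ l ∈ A, (g l * Real.exp (σ * Real.log l)) := by
      intro A hA
      rw [Finset.mem_filter, not_le] at hA
      have hAP := Finset.mem_powerset.mp hA.1
      rw [Finset.prod_mul_distrib, ← Real.exp_sum, ← Finset.mul_sum]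
      have h2 : ∑ l ∈ A, Real.log l = Real.log ((∏ l ∈ A, l : ℕ) : ℝ) := by
        rw [Nat.cast_prod, Real.log_prod]
        intro l hl
        exact_mod_cast (hP l (hAP hl)).ne_zero
      have h3 : Real.log D ≤ Real.log ((∏ l ∈ A, l : ℕ) : ℝ) :=
        Real.log_le_log hD0 (by exact_mod_cast hA.2.le)
      have h4 : 0 ≤ ∏ l ∈ A, g l := Finset.prod_nonneg fun l hl => hf0 l (hAP hl)
      have h5 : 1 ≤ Real.exp (-(σ * Real.log D)) * Real.exp (σ * ∑ l ∈ A, Real.log l) := by
        rw [← Real.exp_add, h2]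
        apply Real.one_le_exp
        nlinarith
      calc ∏ l ∈ A, g l = (∏ l ∈ A, g l) * 1 := (mul_one _).symm
        _ ≤ (∏ l ∈ A, g l) *
            (Real.exp (-(σ * Real.log D)) * Real.exp (σ * ∑ l ∈ A, Real.log l)) :=
          mul_le_mul_of_nonneg_left h5 h4
        _ = _ := by ring
    refine (Finset.sum_le_sum h1).trans ?_
    rw [← Finset.mul_sum]
    have h2 : ∑ A ∈ P.powerset.filter (fun A => ¬ ∏ l ∈ A, l ≤ D),
        ∏ l ∈ A, (g l * Real.exp (σ * Real.log l)) ≤
        ∏ l ∈ P, (1 + g l * Real.exp (σ * Real.log l)) := by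
      rw [Finset.prod_one_add]
      apply Finset.sum_le_sum_of_subset_of_nonneg (Finset.filter_subset _ _)
      intro A hA _
      exact Finset.prod_nonneg fun l hl =>
        mul_nonneg (hf0 l (Finset.mem_powerset.mp hA hl)) (Real.exp_pos _).le
    refine (mul_le_mul_of_nonneg_left h2 (Real.exp_pos _).le).trans ?_
    have h3 : ∏ l ∈ P, (1 + g l * Real.exp (σ * Real.log l)) ≤
        ∏ l ∈ P, (Real.exp (8 * σ * (Real.log l / l)) * (1 + g l)) := by
      apply Finset.prod_le_prod
      · intro l hl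
        have := hf0 l hl
        positivity
      · intro l hl
        have hl1 : (1 : ℝ) < l := by exact_mod_cast (hP l hl).one_lt
        have hlog : 0 < Real.log l := Real.log_pos hl1
        obtain ⟨x, hx⟩ : ∃ x, x = σ * Real.log l := ⟨_, rfl⟩
        have hx0 : 0 ≤ x := by rw [hx]; positivity
        have hx1 : x ≤ 1 := by rw [hx]; exact hσP l hl
        have hexp : Real.exp x ≤ 1 + 2 * x := by
          have h4 := Real.exp_bound' hx0 hx1 (n := 2) (by norm_num)
          norm_num [Finset.sum_range_succ] at h4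
          nlinarith
        rw [← hx]
        have h4 : 8 * σ * (Real.log l / l) = 8 * x / l := by rw [hx]; ring
        rw [h4]
        have h5 : 8 * x / l + 1 ≤ Real.exp (8 * x / l) := Real.add_one_le_exp _
        have hf := hf0 l hl
        have h6 : g l * Real.exp x ≤ g l * (1 + 2 * x) := mul_le_mul_of_nonneg_left hexp hf
        have h7 : g l * (2 * x) ≤ 8 * x / l := by
          have h9 : g l * (2 * x) ≤ 4 / l * (2 * x) :=
            mul_le_mul_of_nonneg_right (hg l hl).2 (by linarith)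
          refine h9.trans (le_of_eq ?_)
          ring
        have h8 : 0 ≤ 8 * x / l := by positivity
        calc 1 + g l * Real.exp x ≤ 1 + g l * (1 + 2 * x) := by linarith
          _ ≤ (8 * x / l + 1) * (1 + g l) := by nlinarith
          _ ≤ _ := mul_le_mul_of_nonneg_right h5 (by linarith)
    refine (mul_le_mul_of_nonneg_left h3 (Real.exp_pos _).le).trans (le_of_eq ?_)
    rw [Finset.prod_mul_distrib, ← Real.exp_sum, ← Finset.mul_sum, ← mul_assoc, ← Real.exp_add]
    congr 2
    ring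
  linarith

/-- **RANKB** -/
theorem rankb (hM : Nmert1Stmt) : RankbStmt := by
  obtain ⟨C, hC⟩ := hM
  have hC0 : 0 ≤ C := (abs_nonneg _).trans (hC 1 le_rfl)
  have hl2 : 0 < Real.log 2 := Real.log_pos (by norm_num)
  refine ⟨8 + 8 * C / Real.log 2, fun z D hz hD P g hP => ?_⟩
  have hz2 : (2 : ℝ) ≤ z := by exact_mod_cast hz
  have hlz : Real.log 2 ≤ Real.log z := Real.log_le_log (by norm_num) hz2
  have hlz0 : 0 < Real.log z := hl2.trans_le hlz
  have hz1 : 1 ≤ z := by omega
  have hsum : ∑ l ∈ P, Real.log l / l ≤ Real.log z + C := by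
    have h1 : ∑ l ∈ P, Real.log l / l ≤
        ∑ l ∈ (Finset.Icc 1 z).filter Nat.Prime, Real.log l / l := by
      apply Finset.sum_le_sum_of_subset_of_nonneg
      · intro l hl
        rw [Finset.mem_filter, Finset.mem_Icc]
        exact ⟨⟨(hP l hl).1.one_lt.le, (hP l hl).2.1⟩, (hP l hl).1⟩
      · intro l hl _
        rw [Finset.mem_filter, Finset.mem_Icc] at hl
        exact div_nonneg (Real.log_nonneg (by exact_mod_cast hl.1.1)) (Nat.cast_nonneg l)
    have h2 := (abs_le.mp (hC z hz1)).2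
    linarith
  have hmain := rankin_tail P (fun l hl => (hP l hl).1) D hD g (fun l hl => (hP l hl).2.2)
    (1 / Real.log z) (by positivity) (fun l hl => by
      rw [div_mul_eq_mul_div, one_mul, div_le_one hlz0]
      have h1 : (0 : ℝ) < l := by exact_mod_cast (hP l hl).1.pos
      exact Real.log_le_log h1 (by exact_mod_cast (hP l hl).2.1))
  have hexp : Real.exp (8 * (1 / Real.log z) * ∑ l ∈ P, Real.log l / l -
      1 / Real.log z * Real.log D) ≤
      Real.exp (8 + 8 * C / Real.log 2 - Real.log D / Real.log z) := by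
    rw [Real.exp_le_exp]
    have h1 : 8 * (1 / Real.log z) * ∑ l ∈ P, Real.log l / l ≤
        8 * (1 / Real.log z) * (Real.log z + C) :=
      mul_le_mul_of_nonneg_left hsum (by positivity)
    have h2 : 8 * (1 / Real.log z) * (Real.log z + C) = 8 + 8 * C / Real.log z := by
      field_simp
    have h3 : 8 * C / Real.log z ≤ 8 * C / Real.log 2 :=
      div_le_div_of_nonneg_left (by positivity) hl2 hlz
    have h4 : 1 / Real.log z * Real.log D = Real.log D / Real.log z := by ring
    rw [h4]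
    linarith
  have hprod : 0 ≤ ∏ l ∈ P, (1 + g l) := by
    apply Finset.prod_nonneg
    intro l hl
    have : 0 ≤ g l := (hP l hl).2.2.1
    linarith
  have h6 := mul_le_mul_of_nonneg_right hexp hprod
  refine le_trans ?_ hmain
  rw [sub_mul, one_mul]
  linarith

end Pool.Agent.Lib.MP_ba0fa5_ag.AA.H54
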