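import Pool.Agent.Lib.MP_ba0fa5_ag.AA.IfaceA
import Pool.Agent.Lib.MP_3ae5b0_nt.DivBound

/-!
# DIVB: divisor bounds
-/

set_option autoImplicit false

namespace Pool.Agent.Lib.MP_ba0fa5_ag.AA.H54

open Finset Pool.Agent.Lib.MP_ba0fa5_ag
open scoped Classical

/-- `2 ^ ω(n) ≤ τ(n)` -/
lemma two_pow_le (n : ℕ) (hn : n ≠ 0) : 2 ^ n.primeFactors.card ≤ n.divisors.card := by
  rw [← Finset.card_powerset]
  apply Finset.card_le_card_of_injOn (fun A : Finset ℕ => ∏ l ∈ A, l)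
  · intro A hA
    have hA' : A ⊆ n.primeFactors := Finset.mem_powerset.1 (Finset.mem_coe.1 hA)
    rw [Finset.mem_coe, Nat.mem_divisors]
    exact ⟨(Finset.prod_dvd_prod_of_subset _ _ _ hA').trans (Nat.prod_primeFactors_dvd n), hn⟩
  · intro A hA A' hA' h
    have h1 : A ⊆ n.primeFactors := Finset.mem_powerset.1 (Finset.mem_coe.1 hA)
    have h2 : A' ⊆ n.primeFactors := Finset.mem_powerset.1 (Finset.mem_coe.1 hA')
    have h3 := congrArg Nat.primeFactors h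
    simp only at h3
    rwa [Nat.primeFactors_prod fun p hp => Nat.prime_of_mem_primeFactors (h1 hp),
      Nat.primeFactors_prod fun p hp => Nat.prime_of_mem_primeFactors (h2 hp)] at h3

/-- `n / φ(n) ≤ 2 ^ ω(n)` -/
lemma div_totient_le (n : ℕ) (hn : n ≠ 0) : (n : ℝ) / n.totient ≤ 2 ^ n.primeFactors.card := by
  have hn0 : (0 : ℝ) < n := by exact_mod_cast Nat.pos_of_ne_zero hn
  have hφ : (n.totient : ℝ) = n * ∏ l ∈ n.primeFactors, (1 - (l : ℝ)⁻¹) := by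
    have h1 := Nat.totient_eq_mul_prod_factors n
    have h2 : (n.totient : ℝ) = ((n.totient : ℚ) : ℝ) := by push_cast; rfl
    rw [h2, h1]
    push_cast
    rfl
  have hφ0 : (0 : ℝ) < n.totient := by
    exact_mod_cast Nat.totient_pos.2 (Nat.pos_of_ne_zero hn)
  rw [div_le_iff₀ hφ0, hφ]
  have h1 : ((1 : ℝ) / 2) ^ n.primeFactors.card ≤ ∏ l ∈ n.primeFactors, (1 - (l : ℝ)⁻¹) := by
    rw [← Finset.prod_const]
    apply Finset.prod_le_prod
    · intro _ _
      norm_num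
    · intro l hl
      have h2 : (2 : ℝ) ≤ l := by exact_mod_cast (Nat.prime_of_mem_primeFactors hl).two_le
      have h3 : (l : ℝ)⁻¹ ≤ 2⁻¹ := inv_anti₀ (by norm_num) h2
      linarith
  have h2 : (2 : ℝ) ^ n.primeFactors.card * ((1 : ℝ) / 2) ^ n.primeFactors.card = 1 := by
    rw [← mul_pow]
    norm_num
  calc (n : ℝ) = n * (2 ^ n.primeFactors.card * (1 / 2) ^ n.primeFactors.card) := by
        rw [h2, mul_one]
    _ ≤ n * (2 ^ n.primeFactors.card * ∏ l ∈ n.primeFactors, (1 - (l : ℝ)⁻¹)) := by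
        gcongr
    _ = _ := by ring

/-- **DIVB** -/
theorem divb : DivbStmt := by
  intro ε hε
  obtain ⟨C, hC1, hC⟩ := Pool.Agent.Lib.MP_3ae5b0_nt.divisor_bound ε hε
  obtain ⟨C', hC1', hC'⟩ := Pool.Agent.Lib.MP_3ae5b0_nt.divisor_bound (ε / 2) (by positivity)
  refine ⟨max C (C' ^ 2), by positivity, fun n hn => ?_⟩
  have hn0 : n ≠ 0 := by omega
  have hnR : (0 : ℝ) < n := by exact_mod_cast hn
  have hne : (0 : ℝ) ≤ (n : ℝ) ^ ε := by positivity
  have h1 := hC n hn0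
  have h2 := hC' n hn0
  have h3 : ((2 : ℝ)) ^ n.primeFactors.card ≤ n.divisors.card := by
    exact_mod_cast two_pow_le n hn0
  have h4 : (n.divisors.card : ℝ) ≤ max C (C' ^ 2) * (n : ℝ) ^ ε :=
    h1.trans (mul_le_mul_of_nonneg_right (le_max_left _ _) hne)
  refine ⟨h4, ((div_totient_le n hn0).trans h3).trans h4, ?_⟩
  have h5 : (4 : ℝ) ^ n.primeFactors.card = (2 ^ n.primeFactors.card) ^ 2 := by
    rw [← pow_mul, mul_comm, pow_mul]
    norm_num
  have h6 : ((n : ℝ) ^ (ε / 2)) ^ 2 = (n : ℝ) ^ ε := by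
    rw [← Real.rpow_natCast, ← Real.rpow_mul hnR.le]
    congr 1
    push_cast
    ring
  rw [h5]
  calc ((2 : ℝ) ^ n.primeFactors.card) ^ 2 ≤ (C' * (n : ℝ) ^ (ε / 2)) ^ 2 :=
        pow_le_pow_left₀ (by positivity) (h3.trans h2) 2
    _ = C' ^ 2 * (n : ℝ) ^ ε := by rw [mul_pow, h6]
    _ ≤ _ := mul_le_mul_of_nonneg_right (le_max_right _ _) hne

end Pool.Agent.Lib.MP_ba0fa5_ag.AA.H54
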