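import Pool.Agent.Lib.MP_ba0fa5_ag.AA.IfaceA

/-!
# BT: Brun-Titchmarsh
-/

set_option autoImplicit false

namespace Pool.Agent.Lib.MP_ba0fa5_ag.AA.H54

open Finset Pool.Agent.Lib.MP_ba0fa5_ag
open scoped Classical

/-- the root of a natural number, up to a factor `2` in the logarithm -/
lemma exists_root (B M : ℕ) (hB : 1 ≤ B) (hM : 3 ^ B ≤ M) :
    ∃ z : ℕ, 3 ≤ z ∧ z ^ B ≤ M ∧ Real.log M ≤ 2 * B * Real.log z := by
  have hex : ∃ n : ℕ, ¬ (n + 3) ^ B ≤ M := by
    refine ⟨M, ?_⟩
    rw [not_le]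
    calc M < M + 3 := by omega
      _ = (M + 3) ^ 1 := (pow_one _).symm
      _ ≤ (M + 3) ^ B := Nat.pow_le_pow_right (by omega) hB
  obtain ⟨n, hn⟩ : ∃ n, n = Nat.find hex := ⟨_, rfl⟩
  have h1 : ¬ (n + 3) ^ B ≤ M := hn ▸ Nat.find_spec hex
  have hn0 : n ≠ 0 := by
    rintro h0
    rw [h0, zero_add] at h1
    exact h1 hM
  have h2 : (n - 1 + 3) ^ B ≤ M := by
    have := Nat.find_min hex (m := n - 1) (by omega)
    rwa [not_not] at this
  refine ⟨n - 1 + 3, by omega, h2, ?_⟩
  have h3 : (M : ℝ) ≤ ((n - 1 + 3 : ℕ) : ℝ) ^ (2 * B) := by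
    have h4 : M ≤ (n - 1 + 3) ^ (2 * B) := by
      rw [not_le] at h1
      refine h1.le.trans ?_
      rw [pow_mul]
      apply Nat.pow_le_pow_left
      nlinarith [Nat.sub_add_cancel (Nat.one_le_iff_ne_zero.2 hn0)]
    exact_mod_cast h4
  have hM0 : (0 : ℝ) < M := by
    have : 0 < M := lt_of_lt_of_le (by positivity) hM
    exact_mod_cast this
  have h5 := Real.log_le_log hM0 h3
  rw [Real.log_pow] at h5
  push_cast at h5 ⊢
  exact h5

/-- counting primes in a progression by sieving -/
lemma count_le (q a x z : ℕ) (hq : 1 ≤ q) (hzx : z ≤ x) :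
    (((Ioc x (2 * x)).filter (fun l => l.Prime ∧ l ≡ a [MOD q])).card) ≤
      ((range (x / q + 1)).filter (fun w => ∀ l ∈ (primesIn 3 z).filter (fun l => ¬ l ∣ q),
        w % l ∉ (range l).filter (fun r =>
          l ∣ x + 1 + (a + (q - (x + 1) % q)) % q + q * r))).card := by
  obtain ⟨s, hs⟩ : ∃ s, s = (a + (q - (x + 1) % q)) % q := ⟨_, rfl⟩
  rw [← hs]
  have hform : ∀ l ∈ (Ioc x (2 * x)).filter (fun l => l.Prime ∧ l ≡ a [MOD q]),
      l = x + 1 + s + q * ((l - (x + 1)) / q) := by
    intro l hl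
    rw [mem_filter, mem_Ioc] at hl
    obtain ⟨⟨h1, h2⟩, -, h3⟩ := hl
    have h4 : (l - (x + 1)) % q = s := by
      have hsq : s < q := by rw [hs]; exact Nat.mod_lt _ hq
      have h5 : (x + 1) + (a + (q - (x + 1) % q)) ≡ a [MOD q] := by
        have h6 : (x + 1) % q ≤ q := (Nat.mod_lt _ hq).le
        have h7 : (x + 1) + (a + (q - (x + 1) % q)) = a + q * (1 + (x + 1) / q) := by
          have h8 := Nat.div_add_mod (x + 1) q
          have h9 : q * (1 + (x + 1) / q) = q + q * ((x + 1) / q) := by ring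
          rw [h9]
          omega
        rw [h7]
        exact (Nat.modEq_iff_dvd' (by omega)).2 ⟨1 + (x + 1) / q, by
          rw [Nat.add_sub_cancel_left]⟩ |>.symm
      have h6 : (x + 1) + (l - (x + 1)) ≡ (x + 1) + s [MOD q] := by
        rw [Nat.add_sub_cancel' (by omega)]
        refine h3.trans (h5.symm.trans ?_)
        rw [hs]
        exact Nat.ModEq.add_left _ (Nat.mod_modEq _ _).symm
      have h7 := Nat.ModEq.add_left_cancel' _ h6
      rw [Nat.ModEq, Nat.mod_eq_of_lt hsq] at h7
      exact h7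
    have h5 := Nat.div_add_mod (l - (x + 1)) q
    rw [h4] at h5
    omega
  apply Finset.card_le_card_of_injOn (fun l => (l - (x + 1)) / q)
  · intro l hl
    have hl' := hform l hl
    rw [Finset.mem_coe, mem_filter, mem_Ioc] at hl
    obtain ⟨⟨h1, h2⟩, hp, h3⟩ := hl
    rw [Finset.mem_coe, mem_filter, mem_range]
    refine ⟨?_, ?_⟩
    · exact Nat.lt_succ_of_le (Nat.div_le_div_right (by omega))
    · intro p hp' hmem
      rw [mem_filter, primesIn, mem_filter, mem_Ioc] at hp'
      rw [mem_filter] at hmem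
      obtain ⟨⟨⟨h3', hpz⟩, hpp⟩, -⟩ := hp'
      have h4 : p ∣ l := by
        rw [hl']
        refine (Nat.modEq_zero_iff_dvd.1 ?_)
        refine Nat.ModEq.trans ?_ (Nat.modEq_zero_iff_dvd.2 hmem.2)
        exact Nat.ModEq.add_left _ (Nat.ModEq.mul_left _ (Nat.mod_modEq _ _).symm)
      rcases (Nat.dvd_prime hp).1 h4 with h5 | h5
      · omega
      · omega
  · intro l hl l' hl' h
    have e1 := hform l hl
    have e2 := hform l' hl'
    simp only at h
    rw [e1, e2, h]

/-- the sieving product -/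
lemma prod_le (q z : ℕ) (hq : 1 ≤ q) :
    ∏ l ∈ (primesIn 3 z).filter (fun l => ¬ l ∣ q), (1 - 1 / (l : ℝ)) ≤
      VV 3 z * (q / q.totient) := by
  have hpos : ∀ l : ℕ, l.Prime → (0 : ℝ) < 1 - 1 / (l : ℝ) ∧ 1 - 1 / (l : ℝ) ≤ 1 := by
    intro l hl
    have h1 : (1 : ℝ) < l := by exact_mod_cast hl.one_lt
    constructor
    · rw [sub_pos, div_lt_one (by linarith)]
      exact h1
    · have : 0 ≤ 1 / (l : ℝ) := by positivity
      linarith
  have hφ : (q.totient : ℝ) = q * ∏ l ∈ q.primeFactors, (1 - 1 / (l : ℝ)) := by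
    have h1 := Nat.totient_eq_mul_prod_factors q
    have h2 : (q.totient : ℝ) = ((q.totient : ℚ) : ℝ) := by push_cast; rfl
    rw [h2, h1]
    push_cast
    congr 1
    apply Finset.prod_congr rfl
    intro l _
    rw [one_div]
  have hq0 : (0 : ℝ) < q := by exact_mod_cast hq
  have hP0 : 0 < ∏ l ∈ q.primeFactors, (1 - 1 / (l : ℝ)) :=
    Finset.prod_pos fun l hl => (hpos l (Nat.prime_of_mem_primeFactors hl)).1
  have h1 : (q : ℝ) / q.totient = (∏ l ∈ q.primeFactors, (1 - 1 / (l : ℝ)))⁻¹ := by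
    rw [hφ]
    field_simp
  rw [h1, ← div_eq_mul_inv, le_div_iff₀ hP0]
  have h2 : ∏ l ∈ q.primeFactors, (1 - 1 / (l : ℝ)) ≤
      ∏ l ∈ (primesIn 3 z).filter (fun l => ¬ ¬ l ∣ q), (1 - 1 / (l : ℝ)) := by
    have hsub : (primesIn 3 z).filter (fun l => ¬ ¬ l ∣ q) ⊆ q.primeFactors := by
      intro l hl
      rw [mem_filter, primesIn, mem_filter, not_not] at hl
      rw [Nat.mem_primeFactors]
      exact ⟨hl.1.2, hl.2, by omega⟩
    rw [← Finset.prod_sdiff hsub]
    have h3 : ∏ l ∈ q.primeFactors \ (primesIn 3 z).filter (fun l => ¬ ¬ l ∣ q),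
        (1 - 1 / (l : ℝ)) ≤ 1 := by
      apply Finset.prod_le_one
      · intro l hl
        exact (hpos l (Nat.prime_of_mem_primeFactors (mem_sdiff.1 hl).1)).1.le
      · intro l hl
        exact (hpos l (Nat.prime_of_mem_primeFactors (mem_sdiff.1 hl).1)).2
    have h4 : 0 ≤ ∏ l ∈ (primesIn 3 z).filter (fun l => ¬ ¬ l ∣ q), (1 - 1 / (l : ℝ)) := by
      apply Finset.prod_nonneg
      intro l hl
      rw [mem_filter, primesIn, mem_filter] at hl
      exact (hpos l hl.1.2).1.le
    nlinarith
  have h3 : 0 ≤ ∏ l ∈ (primesIn 3 z).filter (fun l => ¬ l ∣ q), (1 - 1 / (l : ℝ)) := by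
    apply Finset.prod_nonneg
    intro l hl
    rw [mem_filter, primesIn, mem_filter] at hl
    exact (hpos l hl.1.2).1.le
  refine (mul_le_mul_of_nonneg_left h2 h3).trans (le_of_eq ?_)
  rw [Finset.prod_filter_mul_prod_filter_not]
  rfl

/-- one class modulo every sieving prime -/
lemma card_class (l q b : ℕ) (hl : l.Prime) (hlq : ¬ l ∣ q) :
    ((range l).filter (fun r => l ∣ b + q * r)).card = 1 := by
  have : Fact l.Prime := ⟨hl⟩
  have hq0 : (q : ZMod l) ≠ 0 := by
    rw [Ne, ZMod.natCast_eq_zero_iff]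
    exact hlq
  rw [Finset.card_eq_one]
  refine ⟨(-(b : ZMod l) / q).val, ?_⟩
  ext r
  rw [mem_filter, mem_range, mem_singleton]
  constructor
  · rintro ⟨h1, h2⟩
    have h3 : ((b + q * r : ℕ) : ZMod l) = 0 := (ZMod.natCast_eq_zero_iff _ _).2 h2
    push_cast at h3
    have h4 : (r : ZMod l) = -(b : ZMod l) / q := by
      rw [eq_div_iff hq0]
      linear_combination h3
    rw [← h4, ZMod.val_natCast, Nat.mod_eq_of_lt h1]
  · rintro rfl
    refine ⟨ZMod.val_lt _, ?_⟩
    rw [← ZMod.natCast_eq_zero_iff]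
    push_cast
    rw [ZMod.natCast_val, ZMod.cast_id, mul_div_cancel₀ _ hq0]
    ring

/-- **BT** -/
theorem bt (hF : FluStmt) (hV : VbndStmt) : BtStmt := by
  obtain ⟨B₀, c, C, hc, hC, hF⟩ := hF
  obtain ⟨c', C', hc', hC', hV⟩ := hV
  obtain ⟨B, hB⟩ : ∃ B, B = B₀ + 2 := ⟨_, rfl⟩
  have hB1 : (1 : ℝ) ≤ B := by
    rw [hB]
    push_cast
    linarith [(Nat.cast_nonneg B₀ : (0 : ℝ) ≤ B₀)]
  have hl3 : 0 < Real.log 3 := Real.log_pos (by norm_num)
  have hl9 : 0 < Real.log 9 := Real.log_pos (by norm_num)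
  refine ⟨8 * (1 + C) * C' * Real.log 3 * B + 2 * B * Real.log 9, by positivity,
    fun q a x hq hqx hx ha => ?_⟩
  have hx0 : (0 : ℝ) < x := by
    have : 0 < x := by omega
    exact_mod_cast this
  have hq0 : (0 : ℝ) < q := by exact_mod_cast hq
  have hφ0 : (0 : ℝ) < q.totient := by exact_mod_cast Nat.totient_pos.2 hq
  have hφq : (q.totient : ℝ) ≤ q := by exact_mod_cast Nat.totient_le q
  have hlx : 0 < Real.log x := by
    apply Real.log_pos
    have : 1 < x := by omega
    exact_mod_cast this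
  have hqx' : (q : ℝ) ^ 2 ≤ x := by exact_mod_cast hqx
  have hqlex : q ≤ x := (Nat.le_self_pow (by norm_num) q).trans hqx
  obtain ⟨M, hM⟩ : ∃ M, M = x / q + 1 := ⟨_, rfl⟩
  have hM1 : (x : ℝ) / q ≤ M := by
    rw [div_le_iff₀ hq0]
    have h1 : x < (x / q + 1) * q := by
      have := Nat.div_add_mod x q
      have h2 := Nat.mod_lt x hq
      nlinarith
    rw [hM]
    exact_mod_cast h1.le
  have hM2 : (M : ℝ) ≤ 2 * (x / q) := by
    have h1 : ((x / q : ℕ) : ℝ) ≤ (x : ℝ) / q := Nat.cast_div_le
    have h2 : (1 : ℝ) ≤ (x : ℝ) / q := by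
      rw [le_div_iff₀ hq0, one_mul]
      exact_mod_cast hqlex
    rw [hM]
    push_cast
    linarith
  have hM0 : (0 : ℝ) < M := by
    rw [hM]
    push_cast
    positivity
  -- `log x ≤ 2 log M`
  have hlogM : Real.log x ≤ 2 * Real.log M := by
    have h1 : (x : ℝ) ≤ (M : ℝ) ^ 2 := by
      have h2 : (x : ℝ) ≤ (x / q) ^ 2 := by
        rw [div_pow, le_div_iff₀ (by positivity)]
        nlinarith
      exact h2.trans (pow_le_pow_left₀ (by positivity) hM1 2)
    have h2 := Real.log_le_log hx0 h1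
    rwa [Real.log_pow, Nat.cast_ofNat] at h2
  by_cases hbig : 3 ^ B ≤ M
  · obtain ⟨z, hz3, hzM, hlog⟩ := exists_root B M (by omega) hbig
    have hzx : z ≤ x := by
      have h3 : z ^ 2 ≤ M := (Nat.pow_le_pow_right (by omega) (by omega)).trans hzM
      have h4 : x / q ≤ x := Nat.div_le_self x q
      rw [hM] at h3
      nlinarith
    have hz0 : (0 : ℝ) < z := by
      have : 0 < z := by omega
      exact_mod_cast this
    have hlz : 0 < Real.log z := by
      apply Real.log_pos
      have : 1 < z := by omega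
      exact_mod_cast this
    have hcount := count_le q a x z hq hzx
    rw [← hM] at hcount
    have hcard : ∀ l ∈ (primesIn 3 z).filter (fun l => ¬ l ∣ q),
        ((range l).filter (fun r =>
          l ∣ x + 1 + (a + (q - (x + 1) % q)) % q + q * r)).card = 1 := by
      intro l hl
      rw [mem_filter, primesIn, mem_filter] at hl
      exact card_class l q _ hl.1.2 hl.2
    have hFz := hF z M (by omega) ((Nat.pow_le_pow_right (by omega) (by omega)).trans hzM)
      ((primesIn 3 z).filter (fun l => ¬ l ∣ q))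
      (fun l => (range l).filter (fun r =>
          l ∣ x + 1 + (a + (q - (x + 1) % q)) % q + q * r)) (by
        intro l hl
        refine ⟨?_, ?_, ?_, ?_, ?_, ?_⟩
        · rw [mem_filter, primesIn, mem_filter] at hl
          exact hl.1.2
        · rw [mem_filter, primesIn, mem_filter, mem_Ioc] at hl
          have h1 : l ≠ 4 := by
            rintro rfl
            exact absurd hl.1.2 (by norm_num)
          omega
        · rw [mem_filter, primesIn, mem_filter, mem_Ioc] at hl
          exact hl.1.1.2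
        · intro r hr
          rw [mem_filter, mem_range] at hr
          exact hr.1
        · rw [hcard l hl]
        · rw [hcard l hl]
          norm_num)
    have hprod : ∏ l ∈ (primesIn 3 z).filter (fun l => ¬ l ∣ q),
        (1 - (((range l).filter (fun r =>
          l ∣ x + 1 + (a + (q - (x + 1) % q)) % q + q * r)).card : ℝ) / l) ≤
        C' * Real.log 3 / Real.log z * (q / q.totient) := by
      have h1 : ∏ l ∈ (primesIn 3 z).filter (fun l => ¬ l ∣ q),
        (1 - (((range l).filter (fun r =>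
          l ∣ x + 1 + (a + (q - (x + 1) % q)) % q + q * r)).card : ℝ) / l) =
          ∏ l ∈ (primesIn 3 z).filter (fun l => ¬ l ∣ q), (1 - 1 / (l : ℝ)) := by
        apply Finset.prod_congr rfl
        intro l hl
        rw [hcard l hl, Nat.cast_one]
      rw [h1]
      refine (prod_le q z hq).trans ?_
      have h2 := (hV 3 z le_rfl hz3).2
      apply mul_le_mul_of_nonneg_right _ (by positivity)
      exact_mod_cast h2
    have hexp : 1 + C * Real.exp (-c * (Real.log M / Real.log z)) ≤ 1 + C := by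
      have h1 : Real.exp (-c * (Real.log M / Real.log z)) ≤ 1 := by
        rw [Real.exp_le_one_iff]
        have h2 : 0 ≤ Real.log M / Real.log z := by
          have : 0 ≤ Real.log M := by linarith
          positivity
        nlinarith
      nlinarith
    have h5 : ((((Ioc x (2 * x)).filter (fun l => l.Prime ∧ l ≡ a [MOD q])).card : ℕ) : ℝ) ≤
        (1 + C) * (2 * (x / q)) * (C' * Real.log 3 / Real.log z * (q / q.totient)) := by
      refine ((Nat.cast_le (α := ℝ)).2 hcount).trans (hFz.trans ?_)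
      apply mul_le_mul
      · exact mul_le_mul hexp hM2 hM0.le (by positivity)
      · exact hprod
      · apply Finset.prod_nonneg
        intro l hl
        rw [hcard l hl, Nat.cast_one, sub_nonneg]
        rw [mem_filter, primesIn, mem_filter] at hl
        have h7 : (1 : ℝ) ≤ l := by exact_mod_cast hl.1.2.one_lt.le
        rw [div_le_one (by linarith)]
        exact h7
      · positivity
    refine h5.trans ?_
    have h7 : (1 + C) * (2 * (x / q)) * (C' * Real.log 3 / Real.log z * (q / q.totient)) =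
        (2 * (1 + C) * C' * Real.log 3) * (x / q.totient) * (1 / Real.log z) := by
      field_simp
    have h8 : 1 / Real.log z ≤ 4 * B * (1 / Real.log x) := by
      rw [mul_one_div, div_le_div_iff₀ hlz hlx]
      nlinarith
    rw [h7]
    have h9 : (0 : ℝ) ≤ (2 * (1 + C) * C' * Real.log 3) * (x / q.totient) := by positivity
    refine (mul_le_mul_of_nonneg_left h8 h9).trans ?_
    have h10 : (8 * (1 + C) * C' * Real.log 3 * B + 2 * B * Real.log 9) * x /
        (q.totient * Real.log x) = (8 * (1 + C) * C' * Real.log 3 * B + 2 * B * Real.log 9) *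
        (x / q.totient) * (1 / Real.log x) := by
      field_simp
    rw [h10]
    have h12 : (0 : ℝ) ≤ 2 * B * Real.log 9 * ((x / q.totient) * (1 / Real.log x)) := by positivity
    have h13 : 2 * (1 + C) * C' * Real.log 3 * (x / q.totient) * (4 * B * (1 / Real.log x)) =
        8 * (1 + C) * C' * Real.log 3 * B * ((x / q.totient) * (1 / Real.log x)) := by ring
    have h14 : (8 * (1 + C) * C' * Real.log 3 * B + 2 * B * Real.log 9) *
        (x / q.totient) * (1 / Real.log x) =
        8 * (1 + C) * C' * Real.log 3 * B * ((x / q.totient) * (1 / Real.log x)) +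
        2 * B * Real.log 9 * ((x / q.totient) * (1 / Real.log x)) := by ring
    rw [h13, h14]
    linarith
  · -- small `x`
    have hcount : (((Ioc x (2 * x)).filter (fun l => l.Prime ∧ l ≡ a [MOD q])).card) ≤ M := by
      have h1 := count_le q a x 0 hq (Nat.zero_le _)
      refine h1.trans ((Finset.card_filter_le _ _).trans ?_)
      rw [card_range, hM]
    have h1 : ((((Ioc x (2 * x)).filter (fun l => l.Prime ∧ l ≡ a [MOD q])).card : ℕ) : ℝ) ≤
        2 * (x / q) := by
      refine le_trans ?_ hM2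
      exact_mod_cast hcount
    have h2 : Real.log M ≤ B * Real.log 3 := by
      rw [not_le] at hbig
      have h3 : (M : ℝ) ≤ 3 ^ B := by exact_mod_cast hbig.le
      have h4 := Real.log_le_log hM0 h3
      rwa [Real.log_pow] at h4
    have h9 : Real.log 9 = 2 * Real.log 3 := by
      rw [show (9 : ℝ) = 3 ^ 2 by norm_num, Real.log_pow, Nat.cast_ofNat]
    have h3 : Real.log x ≤ B * Real.log 9 := by
      rw [h9]
      linarith
    refine h1.trans ?_
    rw [le_div_iff₀ (by positivity)]
    have h4 : 2 * ((x : ℝ) / q) * (q.totient * Real.log x) =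
        2 * x * (q.totient / q) * Real.log x := by
      field_simp
    rw [h4]
    have h5 : (q.totient : ℝ) / q ≤ 1 := by
      rw [div_le_one hq0]
      exact hφq
    have h6 : 2 * (x : ℝ) * (q.totient / q) * Real.log x ≤ 2 * x * 1 * (B * Real.log 9) := by
      apply mul_le_mul _ h3 hlx.le (by positivity)
      exact mul_le_mul_of_nonneg_left h5 (by positivity)
    have h7 : (0 : ℝ) ≤ 8 * (1 + C) * C' * Real.log 3 * B * x := by positivity
    have h8 : (8 * (1 + C) * C' * Real.log 3 * B + 2 * B * Real.log 9) * x =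
        8 * (1 + C) * C' * Real.log 3 * B * x + 2 * x * 1 * (B * Real.log 9) := by ring
    rw [h8]
    linarith

end Pool.Agent.Lib.MP_ba0fa5_ag.AA.H54
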